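import Pool.Agent.Helper49.LC.St

/-! # LC MODULE TUB: a tubular map, symplectic along the plane -/

set_option autoImplicit false

namespace Pool.Agent.Helper36.LC

open Pool.Agent.Helper14.LK Pool.Agent.Helper49.LC
open scoped ContDiff Topology
open Filter

private theorem ip_zero {n : ℕ} {a : WW n} (h : ip a a = 0) : a = 0 := by
  rw [ip_self_eq] at h
  exact nm_eq_zero (pow_eq_zero_iff (two_ne_zero) |>.1 h)

/-- the Gram operator -/
private noncomputable def GG {n : ℕ} (A : EE n →L[ℝ] WW n) : EE n →L[ℝ] EE n :=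
  ∑ i : Fin n, (((omL n).flip (JJ (A (EuclideanSpace.basisFun (Fin n) ℝ i)))).comp A).smulRight
    (EuclideanSpace.basisFun (Fin n) ℝ i)

private theorem GG_apply {n : ℕ} (A : EE n →L[ℝ] WW n) (u : EE n) :
    GG A u = ∑ i : Fin n, ip (A u) (A (EuclideanSpace.basisFun (Fin n) ℝ i)) •
      (EuclideanSpace.basisFun (Fin n) ℝ i : EE n) := by
  unfold GG
  rw [sum_apply]
  refine Finset.sum_congr rfl fun i _ => ?_
  rw [ContinuousLinearMap.smulRight_apply, ContinuousLinearMap.comp_apply,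
    ContinuousLinearMap.flip_apply, omL_apply, om_JJ_right]

private theorem ip_smul_right {n : ℕ} (a b : WW n) (t : ℝ) : ip a (t • b) = t * ip a b := by
  rw [← om_JJ_right, map_smul, om_smul_right, om_JJ_right]

private theorem ip_sum {n : ℕ} (a : WW n) (b : Fin n → WW n) :
    ip a (∑ i, b i) = ∑ i, ip a (b i) := by
  have h : ∀ c : WW n, ip a c = ((omL n a).comp JJ) c := by
    intro c
    rw [ContinuousLinearMap.comp_apply, omL_apply, om_JJ_right]
  rw [h, map_sum]
  exact Finset.sum_congr rfl fun i _ => (h _).symm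

private theorem inner_GG {n : ℕ} (A : EE n →L[ℝ] WW n) (u v : EE n) :
    inner ℝ (GG A u) v = ip (A u) (A v) := by
  rw [GG_apply, sum_inner]
  conv_rhs => rw [← (EuclideanSpace.basisFun (Fin n) ℝ).sum_repr' v, map_sum, ip_sum]
  refine Finset.sum_congr rfl fun i _ => ?_
  rw [real_inner_smul_left, map_smul, ip_smul_right, mul_comm]

private theorem GG_inj {n : ℕ} (A : EE n →L[ℝ] WW n) (h2 : ∀ u, A u = 0 → u = 0) :
    Function.Injective (GG A) := by
  rw [injective_iff_map_eq_zero]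
  intro u hu
  apply h2
  apply ip_zero
  rw [← inner_GG, hu, inner_zero_left]

private noncomputable def QQ {n : ℕ} (A : EE n →L[ℝ] WW n) (h2 : ∀ u, A u = 0 → u = 0) :
    EE n ≃L[ℝ] EE n :=
  (LinearEquiv.ofInjectiveEndo ((GG A) : EE n →ₗ[ℝ] EE n) (GG_inj A h2)).toContinuousLinearEquiv

private theorem QQ_coe {n : ℕ} (A : EE n →L[ℝ] WW n) (h2 : ∀ u, A u = 0 → u = 0) :
    ((QQ A h2 : EE n ≃L[ℝ] EE n) : EE n →L[ℝ] EE n) = GG A := by
  ext u
  rfl

private theorem GG_inv {n : ℕ} (A : EE n →L[ℝ] WW n) (h2 : ∀ u, A u = 0 → u = 0) (v : EE n) :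
    GG A (ContinuousLinearMap.inverse (GG A) v) = v := by
  have h : ContinuousLinearMap.inverse (GG A) = ((QQ A h2).symm : EE n →L[ℝ] EE n) := by
    rw [← QQ_coe A h2, ContinuousLinearMap.inverse_equiv]
  rw [h]
  have h3 : GG A ((QQ A h2).symm v) = QQ A h2 ((QQ A h2).symm v) := by
    rw [← QQ_coe A h2]
    rfl
  exact h3.trans ((QQ A h2).apply_symm_apply v)

/-- TUB -/
theorem hTUB : StTUB := by
  intro n ι R hι hiso himm hfar
  have hA : ContDiff ℝ ∞ (fun x => fderiv ℝ ι x) := (contDiff_infty_iff_fderiv.1 hι).2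
  have h2 : ∀ x u, fderiv ℝ ι x u = 0 → u = 0 := himm
  have h1 : ∀ x u v, om (fderiv ℝ ι x u) (fderiv ℝ ι x v) = 0 := hiso
  have hG : ContDiff ℝ ∞ (fun x => GG (fderiv ℝ ι x)) := by
    rw [contDiff_clm_apply_iff]
    intro y
    have e1 : (fun x => GG (fderiv ℝ ι x) y) = fun x => ∑ i : Fin n,
        (omL n (fderiv ℝ ι x y) (JJ (fderiv ℝ ι x (EuclideanSpace.basisFun (Fin n) ℝ i)))) •
          (EuclideanSpace.basisFun (Fin n) ℝ i : EE n) := by
      funext x
      rw [GG_apply]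
      refine Finset.sum_congr rfl fun i _ => ?_
      rw [omL_apply, om_JJ_right]
    rw [e1]
    refine ContDiff.sum fun i _ => ?_
    have hs : ContDiff ℝ ∞ (fun x => omL n (fderiv ℝ ι x y)
        (JJ (fderiv ℝ ι x (EuclideanSpace.basisFun (Fin n) ℝ i)))) :=
      ((omL n).contDiff.comp (hA.clm_apply contDiff_const)).clm_apply
      (JJ.contDiff.comp (hA.clm_apply contDiff_const))
    have hc : ContDiff ℝ ∞ (fun _ : EE n => (EuclideanSpace.basisFun (Fin n) ℝ i : EE n)) :=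
      contDiff_const
    exact hs.smul hc
  have hP : ContDiff ℝ ∞ (fun x => ContinuousLinearMap.inverse (GG (fderiv ℝ ι x))) := by
    rw [contDiff_iff_contDiffAt]
    intro x
    have h := contDiffAt_map_inverse (𝕜 := ℝ) (n := ∞) (QQ (fderiv ℝ ι x) (h2 x))
    rw [QQ_coe] at h
    exact h.comp x hG.contDiffAt
  obtain ⟨Q, hQ⟩ : ∃ Q : EE n → (EE n →L[ℝ] WW n), Q = fun x =>
    (fderiv ℝ ι x).comp (ContinuousLinearMap.inverse (GG (fderiv ℝ ι x))) := ⟨_, rfl⟩
  have hQs : ContDiff ℝ ∞ Q := by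
    rw [hQ]
    exact hA.clm_comp hP
  have hQs1 : ContDiff ℝ ∞ (fun w : WW n => Q w.1) := hQs.comp contDiff_fst
  refine ⟨fun w => ι w.1 + JJ (Q w.1 w.2), ?_, ?_, ?_, ?_⟩
  · exact (hι.comp contDiff_fst).add (JJ.contDiff.comp (hQs1.clm_apply contDiff_snd))
  · intro x
    show ι x + JJ (Q x 0) = ι x
    rw [map_zero, map_zero, add_zero]
  · intro w hw
    have e1 : ι =ᶠ[𝓝 w.1] fun x => (x, (0 : EE n)) := by
      have : {x : EE n | R < ‖x‖} ∈ 𝓝 w.1 := (isOpen_lt continuous_const continuous_norm).mem_nhds hw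
      filter_upwards [this] with x hx
      exact hfar x (le_of_lt hx)
    have e2 : ∀ u, fderiv ℝ ι w.1 u = (u, 0) := by
      intro u
      rw [e1.fderiv_eq]
      have e3 : HasFDerivAt (fun x : EE n => (x, (0 : EE n)))
          (ContinuousLinearMap.inl ℝ (EE n) (EE n)) w.1 :=
        (ContinuousLinearMap.inl ℝ (EE n) (EE n)).hasFDerivAt
      rw [e3.fderiv]
      rfl
    have e4 : ∀ u, GG (fderiv ℝ ι w.1) u = u := by
      intro u
      apply ext_inner_right ℝ
      intro v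
      rw [inner_GG, e2, e2]
      simp [ip]
    have e5 : ContinuousLinearMap.inverse (GG (fderiv ℝ ι w.1)) w.2 = w.2 := by
      have := GG_inv (fderiv ℝ ι w.1) (h2 w.1) w.2
      rwa [e4] at this
    show ι w.1 + JJ (Q w.1 w.2) = w
    rw [hQ]
    show ι w.1 + JJ (fderiv ℝ ι w.1 (ContinuousLinearMap.inverse (GG (fderiv ℝ ι w.1)) w.2)) = w
    rw [e5, e2, hfar w.1 hw.le, JJ_apply]
    ext <;> simp
  · intro x a b
    have e1 : HasFDerivAt (fun w : WW n => ι w.1 + JJ (Q w.1 w.2))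
        ((fderiv ℝ ι x).comp (ContinuousLinearMap.fst ℝ (EE n) (EE n)) +
          JJ.comp ((Q x).comp (ContinuousLinearMap.snd ℝ (EE n) (EE n)))) (x, 0) := by
      have e2 : HasFDerivAt (fun w : WW n => ι w.1)
          ((fderiv ℝ ι x).comp (ContinuousLinearMap.fst ℝ (EE n) (EE n))) (x, 0) := by
        have e3 : HasFDerivAt ι (fderiv ℝ ι x) ((x, (0 : EE n)) : WW n).1 :=
          (hι.differentiable (by simp) x).hasFDerivAt
        exact e3.comp (x, (0 : EE n)) hasFDerivAt_fst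
      have e4 : HasFDerivAt (fun w : WW n => Q w.1 w.2)
          ((Q x).comp (ContinuousLinearMap.snd ℝ (EE n) (EE n))) (x, 0) := by
        have e5 := (hQs1.differentiable (by simp) (x, (0 : EE n))).hasFDerivAt.clm_apply
          (hasFDerivAt_snd (𝕜 := ℝ) (p := ((x, (0 : EE n)) : WW n)))
        refine e5.congr_fderiv ?_
        show (Q x).comp (ContinuousLinearMap.snd ℝ (EE n) (EE n)) + _ = _
        rw [map_zero, add_zero]
      exact e2.add (JJ.hasFDerivAt.comp (x, (0 : EE n)) e4)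
    rw [e1.fderiv]
    have e6 : ∀ c : WW n, ((fderiv ℝ ι x).comp (ContinuousLinearMap.fst ℝ (EE n) (EE n)) +
          JJ.comp ((Q x).comp (ContinuousLinearMap.snd ℝ (EE n) (EE n)))) c =
        fderiv ℝ ι x c.1 + JJ (fderiv ℝ ι x
          (ContinuousLinearMap.inverse (GG (fderiv ℝ ι x)) c.2)) := by
      intro c
      rw [hQ]
      rfl
    rw [e6, e6]
    obtain ⟨p, hp⟩ : ∃ p, p = ContinuousLinearMap.inverse (GG (fderiv ℝ ι x)) a.2 := ⟨_, rfl⟩
    obtain ⟨q, hq⟩ : ∃ q, q = ContinuousLinearMap.inverse (GG (fderiv ℝ ι x)) b.2 := ⟨_, rfl⟩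
    have hp2 : GG (fderiv ℝ ι x) p = a.2 := by
      rw [hp]
      exact GG_inv _ (h2 x) _
    have hq2 : GG (fderiv ℝ ι x) q = b.2 := by
      rw [hq]
      exact GG_inv _ (h2 x) _
    rw [← hp, ← hq, om_add_left, om_add_right, om_add_right, om_JJ_JJ, h1, h1, om_JJ_right,
      om_JJ_left, ip_comm (fderiv ℝ ι x a.1), ← inner_GG, ← inner_GG, hp2, hq2]
    unfold om
    rw [real_inner_comm]
    ring

end Pool.Agent.Helper36.LC
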